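import Mathlib

/-!
# Nearest-lower-neighbour augmentations of circle packings need not be sphere packable

We give a finite connected planar graph `G` (the tangency graph of an explicit circle packing), an
integer height function on it and the (unique) choice of nearest lower vertices such that the
augmented graph contains `K_{1,1,1,65}` and hence is not the tangency graph of balls in `ℝ³`.
-/

set_option autoImplicit false

open Metric

namespace Pool.Agent.Results.MP_ffcab7_co.NotSpherePackable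

/-- The closed balls with centres `c v` and radii `r v > 0` in `ℝ^d` form a packing of `G`: their
interiors are pairwise disjoint, and two of them touch if and only if the vertices are adjacent.
For `d = 2` this is a circle packing of `G`; a graph having one is planar. -/
def IsPacking (d : ℕ) {V : Type} (G : SimpleGraph V) (c : V → EuclideanSpace ℝ (Fin d))
    (r : V → ℝ) : Prop :=
  (∀ v, 0 < r v) ∧
  (∀ u v, u ≠ v → Disjoint (ball (c u) (r u)) (ball (c v) (r v))) ∧
  (∀ u v, u ≠ v → (G.Adj u v ↔ (closedBall (c u) (r u) ∩ closedBall (c v) (r v)).Nonempty))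

/-- `f` is a height function on `G`. -/
def IsHeight {V : Type} (G : SimpleGraph V) (f : V → ℤ) : Prop :=
  ∀ u v, G.Adj u v → |f u - f v| ≤ 1

/-- `g` chooses, for every vertex `v` with `L(v) = {w | f w < f v}` nonempty, a vertex of `L(v)`
whose centre is nearest to the centre of `v` among the vertices of `L(v)`. -/
def IsNearestChoice {V : Type} (c : V → EuclideanSpace ℝ (Fin 2)) (f : V → ℤ) (g : V → V) : Prop :=
  ∀ v, (∃ w, f w < f v) → f (g v) < f v ∧ ∀ w, f w < f v → dist (c (g v)) (c v) ≤ dist (c w) (c v)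

/-- The augmented graph `H`: the edges of `G`, and an edge joining `v` to `g v` for every vertex `v`
with `L(v)` nonempty. -/
def augment {V : Type} (G : SimpleGraph V) (f : V → ℤ) (g : V → V) : SimpleGraph V where
  Adj u v := u ≠ v ∧ (G.Adj u v ∨ ((∃ w, f w < f u) ∧ g u = v) ∨ ((∃ w, f w < f v) ∧ g v = u))
  symm := ⟨by
    rintro u v ⟨h, h1 | h2 | h3⟩
    · exact ⟨h.symm, Or.inl h1.symm⟩
    · exact ⟨h.symm, Or.inr (Or.inr h2)⟩
    · exact ⟨h.symm, Or.inr (Or.inl h3)⟩⟩
  loopless := ⟨fun u h => h.1 rfl⟩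

/-- `H` is sphere packable in `ℝ³`. -/
def SpherePackable {V : Type} (H : SimpleGraph V) : Prop :=
  ∃ (c : V → EuclideanSpace ℝ (Fin 3)) (r : V → ℝ), IsPacking 3 H c r

/-! ### The obstruction: `K_{1,1,1,65}` -/

section obstruction

variable {E : Type} [NormedAddCommGroup E] [InnerProductSpace ℝ E]

/-- Stewart's identity at the tangency point of two balls. -/
lemma stewart (A B x : E) (a b s : ℝ) (ha : 0 < a) (hb : 0 < b)
    (hAB : ‖A - B‖ = a + b) (hA : ‖x - A‖ = a + s) (hB : ‖x - B‖ = b + s) :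
    ‖x - ((b / (a + b)) • A + (a / (a + b)) • B)‖ ^ 2 = s ^ 2 + s * (4 * a * b / (a + b)) := by
  have hab : 0 < a + b := by linarith
  have h1 : x - ((b / (a + b)) • A + (a / (a + b)) • B) =
      (b / (a + b)) • (x - A) + (a / (a + b)) • (x - B) := by
    have : x = (b / (a + b)) • x + (a / (a + b)) • x := by
      rw [← add_smul, ← add_div, add_comm b a, div_self hab.ne', one_smul]
    nth_rewrite 1 [this]
    rw [smul_sub, smul_sub]
    abel
  have h2 : ‖(x - B) - (x - A)‖ ^ 2 = (a + b) ^ 2 := by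
    rw [show (x - B) - (x - A) = A - B by abel, hAB]
  rw [norm_sub_sq_real, hA, hB] at h2
  rw [h1, norm_add_sq_real, norm_smul, norm_smul, inner_smul_left, inner_smul_right, hA, hB,
    Real.norm_of_nonneg (by positivity), Real.norm_of_nonneg (by positivity)]
  have h3 : inner ℝ (x - A) (x - B) = ((b + s) ^ 2 + (a + s) ^ 2 - (a + b) ^ 2) / 2 := by
    rw [real_inner_comm]; linarith
  rw [h3]
  simp only [RCLike.conj_to_real]
  field_simp
  ring

lemma inv_dist (x y : E) (s t K : ℝ) (hs : 0 < s) (ht : 0 < t)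
    (hx : ‖x‖ ^ 2 = s ^ 2 + s * K) (hy : ‖y‖ ^ 2 = t ^ 2 + t * K) :
    ‖s⁻¹ • x - t⁻¹ • y‖ ^ 2 = 4 + (‖x - y‖ ^ 2 - (s + t) ^ 2) / (s * t) := by
  rw [norm_sub_sq_real, norm_sub_sq_real, norm_smul, norm_smul, inner_smul_left, inner_smul_right,
    mul_pow, mul_pow, hx, hy, Real.norm_of_nonneg (by positivity),
    Real.norm_of_nonneg (by positivity)]
  simp only [RCLike.conj_to_real]
  field_simp
  ring

end obstruction

lemma no65 (W : Fin 65 → EuclideanSpace ℝ (Fin 3)) (W0 : EuclideanSpace ℝ (Fin 3))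
    (h0 : ∀ i, ‖W i - W0‖ ^ 2 = 4) (h1 : ∀ i j, i ≠ j → 4 ≤ ‖W i - W j‖ ^ 2) : False := by
  -- coordinates of `(W i - W0) / 2`
  have hc : ∀ i (l : Fin 3), |(W i - W0) l| ≤ 2 := by
    intro i l
    have h2 := h0 i
    rw [EuclideanSpace.norm_sq_eq] at h2
    have h3 : ‖(W i - W0) l‖ ^ 2 ≤ ∑ l : Fin 3, ‖(W i - W0) l‖ ^ 2 :=
      Finset.single_le_sum (f := fun l => ‖(W i - W0) l‖ ^ 2) (fun _ _ => by positivity)
        (Finset.mem_univ l)
    rw [h2] at h3
    rw [← Real.norm_eq_abs]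
    nlinarith [norm_nonneg ((W i - W0) l)]
  let cell : Fin 65 → (Fin 3 → Fin 4) := fun i l =>
    ⟨⌊((W i - W0) l / 2 + 1) * (7 / 4)⌋₊, by
      rw [Nat.floor_lt']
      · have := abs_le.1 (hc i l)
        push_cast
        linarith [this.2]
      · norm_num⟩
  obtain ⟨i, j, hij, he⟩ := Fintype.exists_ne_map_eq_of_card_lt cell (by simp)
  have hd : ∀ l : Fin 3, ((W i - W j) l) ^ 2 < 64 / 49 := by
    intro l
    have h2 := congrArg (fun g => (g l : ℕ)) he
    simp only [cell] at h2
    have hi := abs_le.1 (hc i l)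
    have hj := abs_le.1 (hc j l)
    have e1 := Nat.floor_le (show (0 : ℝ) ≤ ((W i - W0) l / 2 + 1) * (7 / 4) by linarith [hi.1])
    have e2 := Nat.lt_floor_add_one (((W i - W0) l / 2 + 1) * (7 / 4))
    have e3 := Nat.floor_le (show (0 : ℝ) ≤ ((W j - W0) l / 2 + 1) * (7 / 4) by linarith [hj.1])
    have e4 := Nat.lt_floor_add_one (((W j - W0) l / 2 + 1) * (7 / 4))
    rw [h2] at e1 e2
    have e5 : (W i - W j) l = (W i - W0) l - (W j - W0) l := by
      simp
    rw [e5]
    set u := (W i - W0) l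
    set v := (W j - W0) l
    have a1 : u - v < 8 / 7 := by linarith
    have a2 : -(8 / 7) < u - v := by linarith
    nlinarith
  have h3 := h1 i j hij
  rw [EuclideanSpace.norm_sq_eq, Fin.sum_univ_three] at h3
  simp only [Real.norm_eq_abs, sq_abs] at h3
  have := hd 0
  have := hd 1
  have := hd 2
  linarith

/-- No family of balls in `ℝ³` has three mutually tangent members and 65 further members with
pairwise disjoint interiors touching all three. -/
lemma no_config (cA cB cU : EuclideanSpace ℝ (Fin 3)) (a b s : ℝ) (ha : 0 < a) (hb : 0 < b)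
    (hs : 0 < s) (c : Fin 65 → EuclideanSpace ℝ (Fin 3)) (r : Fin 65 → ℝ) (hr : ∀ i, 0 < r i)
    (hAB : ‖cA - cB‖ = a + b) (hUA : ‖cU - cA‖ = a + s) (hUB : ‖cU - cB‖ = b + s)
    (hA : ∀ i, ‖c i - cA‖ = a + r i) (hB : ∀ i, ‖c i - cB‖ = b + r i)
    (hU : ∀ i, ‖c i - cU‖ = r i + s) (hd : ∀ i j, i ≠ j → r i + r j ≤ ‖c i - c j‖) : False := by
  set O := (b / (a + b)) • cA + (a / (a + b)) • cB with hO
  set K := 4 * a * b / (a + b) with hK
  have hx : ∀ i, ‖c i - O‖ ^ 2 = r i ^ 2 + r i * K := fun i =>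
    stewart cA cB (c i) a b (r i) ha hb hAB (hA i) (hB i)
  have hy : ‖cU - O‖ ^ 2 = s ^ 2 + s * K := stewart cA cB cU a b s ha hb hAB hUA hUB
  refine no65 (fun i => (r i)⁻¹ • (c i - O)) (s⁻¹ • (cU - O)) ?_ ?_
  · intro i
    rw [inv_dist _ _ _ _ K (hr i) hs (hx i) hy]
    rw [show c i - O - (cU - O) = c i - cU by abel, hU i]
    simp
  · intro i j hij
    rw [inv_dist _ _ _ _ K (hr i) (hr j) (hx i) (hx j)]
    rw [show c i - O - (c j - O) = c i - c j by abel]
    have h1 := hd i j hij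
    have h2 : (r i + r j) ^ 2 ≤ ‖c i - c j‖ ^ 2 := by
      apply pow_le_pow_left₀ _ h1
      have := hr i; have := hr j
      linarith
    have h3 : 0 ≤ (‖c i - c j‖ ^ 2 - (r i + r j) ^ 2) / (r i * r j) := by
      have := hr i; have := hr j
      apply div_nonneg (by linarith) (by positivity)
    linarith

/-- tangency in a packing -/
lemma tangent_dist {d : ℕ} {V : Type} {G : SimpleGraph V} {c : V → EuclideanSpace ℝ (Fin d)}
    {r : V → ℝ} (h : IsPacking d G c r) {u v : V} (huv : G.Adj u v) :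
    ‖c u - c v‖ = r u + r v := by
  have h1 : r u + r v ≤ dist (c u) (c v) := by
    rw [← disjoint_ball_ball_iff (h.1 u) (h.1 v)]
    exact h.2.1 u v huv.ne
  have h2 : ¬ (r u + r v < dist (c u) (c v)) := by
    rw [← disjoint_closedBall_closedBall_iff (h.1 u).le (h.1 v).le]
    rw [Set.disjoint_iff_inter_eq_empty]
    exact ((h.2.2 u v huv.ne).1 huv).ne_empty
  rw [← dist_eq_norm]
  linarith [not_lt.1 h2]

lemma disj_dist {d : ℕ} {V : Type} {G : SimpleGraph V} {c : V → EuclideanSpace ℝ (Fin d)}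
    {r : V → ℝ} (h : IsPacking d G c r) {u v : V} (huv : u ≠ v) :
    r u + r v ≤ ‖c u - c v‖ := by
  rw [← dist_eq_norm, ← disjoint_ball_ball_iff (h.1 u) (h.1 v)]
  exact h.2.1 u v huv

/-! ### The example -/

/-- `inl 0`, `inl 1`: two touching unit discs; `inl 2`: a unit disc touching the first one, the only
vertex of height `0`; `inr i`: 65 small discs touching the first two. -/
abbrev Vert : Type := Fin 3 ⊕ Fin 65

/-- centres -/
noncomputable def cen : Vert → EuclideanSpace ℝ (Fin 2)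
  | .inl 0 => !₂[0, 1]
  | .inl 1 => !₂[0, -1]
  | .inl 2 => !₂[0, 3]
  | .inr i => !₂[1 / (4 * (i : ℝ) + 3) + 1 / (4 * (i : ℝ) + 5), 0]

/-- radii -/
noncomputable def rad : Vert → ℝ
  | .inl _ => 1
  | .inr i => 1 / (4 * (i : ℝ) + 3) - 1 / (4 * (i : ℝ) + 5)

/-- the tangency graph -/
def tang : SimpleGraph Vert where
  Adj u v := u ≠ v ∧ (closedBall (cen u) (rad u) ∩ closedBall (cen v) (rad v)).Nonempty
  symm := ⟨by
    rintro u v ⟨h, h1⟩
    exact ⟨h.symm, by rwa [Set.inter_comm]⟩⟩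
  loopless := ⟨fun u h => h.1 rfl⟩

/-- heights -/
def ht : Vert → ℤ
  | .inl 0 => 1
  | .inl 1 => 1
  | .inl 2 => 0
  | .inr _ => 1

lemma rad_pos (v : Vert) : 0 < rad v := by
  rcases v with i | i
  · simp [rad]
  · have h : (0 : ℝ) ≤ (i : ℝ) := Nat.cast_nonneg _
    simp only [rad]
    rw [sub_pos]
    apply one_div_lt_one_div_of_lt <;> linarith

lemma rad_small (i : Fin 65) : rad (.inr i) ≤ 1 / 3 := by
  have h : (0 : ℝ) ≤ ((i : ℕ) : ℝ) := Nat.cast_nonneg _
  simp only [rad]
  have h1 : 1 / (4 * ((i : ℕ) : ℝ) + 3) ≤ 1 / 3 := by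
    apply one_div_le_one_div_of_le <;> linarith
  have h2 : 0 ≤ 1 / (4 * ((i : ℕ) : ℝ) + 5) := by positivity
  linarith

lemma dist_sq (x y : EuclideanSpace ℝ (Fin 2)) : dist x y ^ 2 = (x 0 - y 0) ^ 2 + (x 1 - y 1) ^ 2 := by
  rw [EuclideanSpace.dist_eq, Real.sq_sqrt (by positivity), Fin.sum_univ_two]
  simp [Real.dist_eq, sq_abs]

lemma dist_eq_of_sq {x y : EuclideanSpace ℝ (Fin 2)} {t : ℝ} (ht : 0 ≤ t)
    (h : (x 0 - y 0) ^ 2 + (x 1 - y 1) ^ 2 = t ^ 2) : dist x y = t := by
  have h1 := dist_sq x y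
  rw [h] at h1
  exact (sq_eq_sq₀ dist_nonneg ht).1 h1

lemma le_dist_of_sq {x y : EuclideanSpace ℝ (Fin 2)} {t : ℝ}
    (h : t ^ 2 ≤ (x 0 - y 0) ^ 2 + (x 1 - y 1) ^ 2) : t ≤ dist x y := by
  rw [← dist_sq] at h
  exact le_of_sq_le_sq h dist_nonneg

lemma dA (i : Fin 65) : dist (cen (.inl 0)) (cen (.inr i)) = rad (.inl 0) + rad (.inr i) := by
  have hr := rad_pos (.inr i)
  have h : (0 : ℝ) ≤ ((i : ℕ) : ℝ) := Nat.cast_nonneg _
  apply dist_eq_of_sq
  · simp only [rad] at hr ⊢; linarith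
  · simp only [cen, rad]
    simp
    field_simp
    ring

lemma dB (i : Fin 65) : dist (cen (.inl 1)) (cen (.inr i)) = rad (.inl 1) + rad (.inr i) := by
  have hr := rad_pos (.inr i)
  have h : (0 : ℝ) ≤ ((i : ℕ) : ℝ) := Nat.cast_nonneg _
  apply dist_eq_of_sq
  · simp only [rad] at hr ⊢; linarith
  · simp only [cen, rad]
    simp
    field_simp
    ring

lemma dAB : dist (cen (.inl 0)) (cen (.inl 1)) = rad (.inl 0) + rad (.inl 1) := by
  apply dist_eq_of_sq <;> norm_num [rad, cen]

lemma dAU : dist (cen (.inl 0)) (cen (.inl 2)) = rad (.inl 0) + rad (.inl 2) := by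
  apply dist_eq_of_sq <;> norm_num [rad, cen]

lemma dij {i j : Fin 65} (hij : i < j) :
    rad (.inr i) + rad (.inr j) ≤ dist (cen (.inr i)) (cen (.inr j)) := by
  have h : (0 : ℝ) ≤ ((i : ℕ) : ℝ) := Nat.cast_nonneg _
  have h' : ((i : ℕ) : ℝ) + 1 ≤ ((j : ℕ) : ℝ) := by exact_mod_cast hij
  have h1 : 1 / (4 * ((j : ℕ) : ℝ) + 3) ≤ 1 / (4 * ((i : ℕ) : ℝ) + 5) := by
    apply one_div_le_one_div_of_le <;> linarith
  have hri := rad_pos (.inr i)
  have hrj := rad_pos (.inr j)
  apply le_dist_of_sq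
  simp only [cen, rad] at *
  simp only [Matrix.cons_val_zero, Matrix.cons_val_one, sub_self]
  have h2 : (0 : ℝ) ^ 2 = 0 := by norm_num
  rw [h2, add_zero]
  apply pow_le_pow_left₀
  · linarith
  · linarith

lemma sep {u v : Vert} (huv : u ≠ v) : rad u + rad v ≤ dist (cen u) (cen v) := by
  rcases u with a | i <;> rcases v with b | j
  · fin_cases a <;> fin_cases b <;> first
      | exact absurd rfl huv
      | (apply le_dist_of_sq; norm_num [rad, cen])
  · fin_cases a
    · exact (dA j).ge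
    · exact (dB j).ge
    · have h := rad_small j
      have h' := rad_pos (.inr j)
      apply le_dist_of_sq
      have e1 : rad (.inl 2) = 1 := rfl
      have e2 : (cen (.inl 2) 1 - cen (.inr j) 1) = 3 := by simp [cen]
      show (rad (.inl 2) + rad (.inr j)) ^ 2 ≤ _
      rw [e1]
      show _ ≤ (cen (.inl 2) 0 - cen (.inr j) 0) ^ 2 + (cen (.inl 2) 1 - cen (.inr j) 1) ^ 2
      rw [e2]
      nlinarith [sq_nonneg (cen (.inl 2) 0 - cen (.inr j) 0)]
  · rw [dist_comm, add_comm]
    fin_cases b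
    · exact (dA i).ge
    · exact (dB i).ge
    · have h := rad_small i
      have h' := rad_pos (.inr i)
      apply le_dist_of_sq
      have e1 : rad (.inl 2) = 1 := rfl
      have e2 : (cen (.inl 2) 1 - cen (.inr i) 1) = 3 := by simp [cen]
      show (rad (.inl 2) + rad (.inr i)) ^ 2 ≤ _
      rw [e1]
      show _ ≤ (cen (.inl 2) 0 - cen (.inr i) 0) ^ 2 + (cen (.inl 2) 1 - cen (.inr i) 1) ^ 2
      rw [e2]
      nlinarith [sq_nonneg (cen (.inl 2) 0 - cen (.inr i) 0)]
  · rcases lt_trichotomy i j with h | h | h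
    · exact dij h
    · exact absurd (by rw [h]) huv
    · rw [dist_comm, add_comm]; exact dij h

lemma adj_of_dist {u v : Vert} (huv : u ≠ v) (h : dist (cen u) (cen v) = rad u + rad v) :
    tang.Adj u v := by
  refine ⟨huv, ?_⟩
  rw [← Set.not_disjoint_iff_nonempty_inter]
  rw [disjoint_closedBall_closedBall_iff (rad_pos u).le (rad_pos v).le]
  linarith

lemma packing : IsPacking 2 tang cen rad := by
  refine ⟨rad_pos, ?_, ?_⟩
  · intro u v huv
    rw [disjoint_ball_ball_iff (rad_pos u) (rad_pos v)]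
    exact sep huv
  · intro u v huv
    exact ⟨fun h => h.2, fun h => ⟨huv, h⟩⟩

lemma adjAB : tang.Adj (.inl 0) (.inl 1) := adj_of_dist (by simp) dAB
lemma adjAU : tang.Adj (.inl 0) (.inl 2) := adj_of_dist (by simp) dAU
lemma adjA (i : Fin 65) : tang.Adj (.inl 0) (.inr i) := adj_of_dist (by simp) (dA i)
lemma adjB (i : Fin 65) : tang.Adj (.inl 1) (.inr i) := adj_of_dist (by simp) (dB i)

lemma conn : tang.Connected := by
  have h : ∀ v, tang.Reachable (.inl 0) v := by
    rintro (a | i)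
    · fin_cases a
      · exact SimpleGraph.Reachable.refl _
      · exact adjAB.reachable
      · exact adjAU.reachable
    · exact (adjA i).reachable
  have : Nonempty Vert := ⟨.inl 0⟩
  exact ⟨fun u v => (h u).symm.trans (h v)⟩

lemma low_iff (v w : Vert) : ht w < ht v ↔ w = .inl 2 ∧ v ≠ .inl 2 := by
  rcases v with a | i <;> rcases w with b | j
  · fin_cases a <;> fin_cases b <;> simp [ht]
  · fin_cases a <;> simp [ht]
  · fin_cases b <;> simp [ht]
  · simp [ht]

/-- **Answer to Q1: no.** There are a finite connected graph `G`, a circle packing of `G` in the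
plane (so `G` is planar), a height function `f` on `G` and a choice `g` of nearest lower vertices
such that the augmented graph is not sphere packable in `ℝ³`. -/
theorem result : ∃ (V : Type) (_ : Fintype V) (G : SimpleGraph V)
    (c : V → EuclideanSpace ℝ (Fin 2)) (r : V → ℝ) (f : V → ℤ) (g : V → V),
    G.Connected ∧ IsPacking 2 G c r ∧ IsHeight G f ∧ IsNearestChoice c f g ∧
      ¬ SpherePackable (augment G f g) := by
  refine ⟨Vert, inferInstance, tang, cen, rad, ht, fun _ => .inl 2, conn, packing, ?_, ?_, ?_⟩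
  · intro u v _
    have : ∀ w : Vert, 0 ≤ ht w ∧ ht w ≤ 1 := by
      rintro (a | i)
      · fin_cases a <;> simp [ht]
      · simp [ht]
    have h1 := this u
    have h2 := this v
    rw [abs_le]
    omega
  · intro v ⟨w, hw⟩
    rw [low_iff] at hw
    refine ⟨(low_iff _ _).2 ⟨rfl, hw.2⟩, fun w' hw' => ?_⟩
    rw [low_iff] at hw'
    rw [hw'.1]
  · rintro ⟨C, R, hP⟩
    set H := augment tang ht (fun _ => .inl 2) with hH
    have lift : ∀ {u v : Vert}, tang.Adj u v → H.Adj u v := fun h => ⟨h.ne, Or.inl h⟩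
    have toU : ∀ v : Vert, v ≠ .inl 2 → H.Adj v (.inl 2) := fun v hv =>
      ⟨hv, Or.inr (Or.inl ⟨⟨.inl 2, (low_iff _ _).2 ⟨rfl, hv⟩⟩, rfl⟩)⟩
    refine no_config (C (.inl 0)) (C (.inl 1)) (C (.inl 2)) (R (.inl 0)) (R (.inl 1)) (R (.inl 2))
      (hP.1 _) (hP.1 _) (hP.1 _) (fun i => C (.inr i)) (fun i => R (.inr i)) (fun i => hP.1 _)
      (tangent_dist hP (lift adjAB)) ?_ ?_ ?_ ?_ ?_ ?_
    · rw [norm_sub_rev]
      exact tangent_dist hP (toU _ (by simp))
    · rw [norm_sub_rev]
      exact tangent_dist hP (toU _ (by simp))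
    · intro i
      rw [norm_sub_rev]
      exact tangent_dist hP (lift (adjA i))
    · intro i
      rw [norm_sub_rev]
      exact tangent_dist hP (lift (adjB i))
    · intro i
      exact tangent_dist hP (toU _ (by simp))
    · intro i j hij
      exact disj_dist hP (by simpa using hij)

end Pool.Agent.Results.MP_ffcab7_co.NotSpherePackable
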